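import Mathlib
import Pool.Agent.Helper16.CY.Elim
import Pool.Agent.Helper77.H3.Defs

/-!
# FIN3: two coprime polynomials in three variables and infinitely many directions in a plane

Eliminate a variable `i` with `e_i` outside the plane; the leading form at `u0` of the result vanishes
at infinitely many directions of a plane on which it is a form in two variables.
-/

set_option autoImplicit false

namespace Pool.Agent.Helper47.H3

open Pool.Agent.Helper77.H3
open MvPolynomial

section lead

variable {L J : Type} [Field L]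

/-- The shifted and scaled polynomial. -/
noncomputable def sh (u0 : J → L) : MvPolynomial J L →ₐ[L] Polynomial (MvPolynomial J L) :=
  aeval fun j => Polynomial.C (C (u0 j)) + Polynomial.X * Polynomial.C (X j)

theorem sh_ne (u0 : J → L) {r : MvPolynomial J L} (hr : r ≠ 0) : sh u0 r ≠ 0 := by
  intro h
  apply hr
  let E : Polynomial (MvPolynomial J L) →ₐ[L] MvPolynomial J L :=
    Polynomial.eval₂AlgHom (aeval fun j => X j - C (u0 j)) 1 (fun _ => Commute.all _ _)
  have h1 : E.comp (sh u0) = AlgHom.id L _ := by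
    apply MvPolynomial.algHom_ext
    intro j
    simp [E, sh, algebraMap_eq]
  have h2 : E (sh u0 r) = r := DFunLike.congr_fun h1 r
  rw [← h2, h, map_zero]

/-- The leading form at `u0`. -/
theorem exists_lead (u0 : J → L) {r : MvPolynomial J L} (hr : r ≠ 0) :
    ∃ ρ : MvPolynomial J L, ρ ≠ 0 ∧ ∀ u : J → PowerSeries L,
      (∀ j, PowerSeries.constantCoeff (u j) = u0 j) → aeval u r = 0 →
      eval (fun j => PowerSeries.coeff 1 (u j)) ρ = 0 := by
  obtain ⟨q, hq, hq0⟩ := Polynomial.exists_eq_pow_rootMultiplicity_mul_and_not_dvd (sh u0 r)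
    (sh_ne u0 hr) 0
  rw [Polynomial.C_0, sub_zero] at hq hq0
  rw [Polynomial.X_dvd_iff] at hq0
  refine ⟨q.coeff 0, hq0, ?_⟩
  intro u hu hur
  have hg : ∀ j, ∃ g : PowerSeries L, u j = PowerSeries.C (u0 j) + PowerSeries.X * g := by
    intro j
    obtain ⟨g, hg⟩ : (PowerSeries.X : PowerSeries L) ∣ u j - PowerSeries.C (u0 j) := by
      rw [PowerSeries.X_dvd_iff, map_sub, hu j, PowerSeries.constantCoeff_C, sub_self]
    exact ⟨g, by rw [← hg]; ring⟩
  choose g hg using hg
  have hg1 : ∀ j, PowerSeries.coeff 1 (u j) = PowerSeries.constantCoeff (g j) := by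
    intro j
    rw [hg j, map_add, PowerSeries.coeff_succ_X_mul, PowerSeries.coeff_C, if_neg one_ne_zero,
      zero_add, PowerSeries.coeff_zero_eq_constantCoeff_apply]
  let P : Polynomial (MvPolynomial J L) →ₐ[L] PowerSeries L :=
    Polynomial.eval₂AlgHom (aeval g) PowerSeries.X (fun _ => Commute.all _ _)
  have h1 : P.comp (sh u0) = aeval u := by
    apply MvPolynomial.algHom_ext
    intro j
    simp [P, sh, hg j, ← algebraMap_eq, ← PowerSeries.algebraMap_eq]
    exact mul_comm _ _
  have h2 : P (sh u0 r) = aeval u r := DFunLike.congr_fun h1 r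
  rw [hq, map_mul, map_pow, hur] at h2
  have h3 : P Polynomial.X = PowerSeries.X := by simp [P]
  rw [h3] at h2
  have h4 := (mul_eq_zero.mp h2).resolve_left (pow_ne_zero _ PowerSeries.X_ne_zero)
  have h5 := congrArg PowerSeries.constantCoeff h4
  rw [map_zero] at h5
  have h6 : PowerSeries.constantCoeff (P q) =
      eval (fun j => PowerSeries.constantCoeff (g j)) (q.coeff 0) := by
    simp only [P]
    rw [Polynomial.eval₂AlgHom_apply, Polynomial.hom_eval₂, PowerSeries.constantCoeff_X,
      Polynomial.eval₂_at_zero, RingHom.comp_apply]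
    change PowerSeries.constantCoeff (aeval g (q.coeff 0)) = _
    rw [aeval_def, hom_eval₂ (q.coeff 0), ← MvPolynomial.eval₂_id]
    congr 1
  have h7 : (fun j => PowerSeries.coeff 1 (u j)) = fun j => PowerSeries.constantCoeff (g j) :=
    funext hg1
  rw [h7, ← h6, h5]

end lead

theorem aeval_rescale {L J : Type} [Field L] (l : L) (u : J → PowerSeries L)
    (F : MvPolynomial J L) :
    aeval (fun e => PowerSeries.rescale l (u e)) F = PowerSeries.rescale l (aeval u F) := by
  rw [aeval_def, aeval_def, MvPolynomial.eval₂_comp_left]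
  congr 1
  ext a n
  simp only [PowerSeries.algebraMap_eq, RingHom.comp_apply, PowerSeries.coeff_rescale,
    PowerSeries.coeff_C]
  by_cases hn : n = 0
  · subst hn
    simp
  · simp [hn]

theorem fin3 {L : Type} [Field L] (F1 F2 : MvPolynomial T3 L) (h : IsRelPrime F1 F2)
    (u0 w v : T3 → L) (hwv : LinearIndependent L ![w, v]) (A : Set L) (hA : A.Infinite)
    (H : ∀ α ∈ A, ∃ u : T3 → PowerSeries L, (∀ e, PowerSeries.constantCoeff (u e) = u0 e) ∧
      (∀ e, PowerSeries.coeff 1 (u e) = w e - α * v e) ∧
      MvPolynomial.aeval u F1 = 0 ∧ MvPolynomial.aeval u F2 = 0) : False := by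
  classical
  have hL : Infinite L := Set.infinite_univ_iff.1 (hA.mono (Set.subset_univ _))
  -- two coordinates
  obtain ⟨b, c, hbc⟩ : ∃ b c : T3, w b * v c - w c * v b ≠ 0 := by
    by_contra hne
    push Not at hne
    rw [LinearIndependent.pair_iff] at hwv
    have hv : v ≠ 0 := by
      intro h0
      have := (hwv 0 1 (by rw [h0]; simp)).2
      exact one_ne_zero this
    obtain ⟨c, hc⟩ : ∃ c, v c ≠ 0 := by
      by_contra h1
      push Not at h1
      exact hv (funext h1)
    have := (hwv (v c) (-(w c)) (by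
      funext b
      have := hne b c
      simp only [Pi.add_apply, Pi.smul_apply, smul_eq_mul, Pi.zero_apply]
      linear_combination this)).1
    exact hc this
  have hb : b ≠ c := by
    rintro rfl
    exact hbc (by ring)
  obtain ⟨i, hib, hic, hall⟩ : ∃ i, b ≠ i ∧ c ≠ i ∧ ∀ j : T3, j ≠ i → j = b ∨ j = c := by
    clear hbc
    revert b c
    decide
  obtain ⟨r, hr, hz⟩ := Pool.Agent.Helper16.CY.exists_elim.{0, 0, 0} i h
  obtain ⟨ρ, hρ, hρ0⟩ := exists_lead (fun j : {j : T3 // j ≠ i} => u0 j) hr
  have h1 : ∀ α ∈ A, ∀ l : L, eval (fun j : {j : T3 // j ≠ i} => l * (w j - α * v j)) ρ = 0 := by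
    intro α hα l
    obtain ⟨u, hu0, hu1, hu2, hu3⟩ := H α hα
    have h2 := hρ0 (fun j => PowerSeries.rescale l (u j)) (fun j => by
      rw [← PowerSeries.coeff_zero_eq_constantCoeff_apply, PowerSeries.coeff_rescale, pow_zero,
        one_mul, PowerSeries.coeff_zero_eq_constantCoeff_apply, hu0]) (by
      apply hz (PowerSeries L) (fun j => PowerSeries.rescale l (u j))
      · rw [aeval_rescale, hu2, map_zero]
      · rw [aeval_rescale, hu3, map_zero])
    rw [← h2]
    congr 2
    funext j
    rw [PowerSeries.coeff_rescale, pow_one, hu1]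
  have h2 : ∀ α l : L, eval (fun j : {j : T3 // j ≠ i} => l * (w j - α * v j)) ρ = 0 := by
    intro α l
    let p : Polynomial L := aeval (fun j : {j : T3 // j ≠ i} =>
      Polynomial.C l * (Polynomial.C (w j) - Polynomial.X * Polynomial.C (v j))) ρ
    have hp : ∀ α : L, Polynomial.eval α p =
        eval (fun j : {j : T3 // j ≠ i} => l * (w j - α * v j)) ρ := by
      intro α
      have h3 : Polynomial.eval α p = Polynomial.aeval α p := by
        rw [Polynomial.aeval_def, Polynomial.eval, Algebra.algebraMap_self]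
      rw [h3]
      simp only [p]
      rw [MvPolynomial.comp_aeval_apply, ← aeval_eq_eval]
      congr 2
      funext j
      simp
      exact Or.inl (mul_comm _ _)
    have hp0 : p = 0 := by
      apply Polynomial.eq_zero_of_infinite_isRoot
      apply hA.mono
      intro β hβ
      show Polynomial.eval β p = 0
      rw [hp, h1 β hβ]
    rw [← hp, hp0, Polynomial.eval_zero]
  have h3 : ρ * (X ⟨b, hib⟩ * C (v c) - X ⟨c, hic⟩ * C (v b)) = 0 := by
    apply MvPolynomial.funext
    intro x
    rw [map_mul, map_sub, map_mul, map_mul, eval_X, eval_X, eval_C, eval_C, map_zero]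
    by_cases hs : x ⟨b, hib⟩ * v c - x ⟨c, hic⟩ * v b = 0
    · rw [hs, mul_zero]
    · set s := x ⟨b, hib⟩ * v c - x ⟨c, hic⟩ * v b with hsdef
      set d := w b * v c - w c * v b with hd
      have h4 := h2 ((x ⟨b, hib⟩ * w c - x ⟨c, hic⟩ * w b) / s) (s / d)
      have h5 : (fun j : {j : T3 // j ≠ i} =>
          s / d * (w j - (x ⟨b, hib⟩ * w c - x ⟨c, hic⟩ * w b) / s * v j)) = x := by
        funext j
        obtain ⟨j, hj⟩ := j
        rcases hall j hj with rfl | rfl
        · field_simp
          rw [hsdef, hd]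
          ring
        · field_simp
          rw [hsdef, hd]
          ring
      rw [h5] at h4
      rw [h4, zero_mul]
  rcases mul_eq_zero.mp h3 with h4 | h4
  · exact hρ h4
  · have h5 := congrArg (eval fun j : {j : T3 // j ≠ i} => w j) h4
    rw [map_sub, map_mul, map_mul, eval_X, eval_X, eval_C, eval_C, map_zero] at h5
    exact hbc h5

end Pool.Agent.Helper47.H3
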